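import Pool.Agent.V1132.ThompsonMain

/-!
# Thompson's group `F` is not integrable
-/

set_option autoImplicit false

universe u

namespace Pool.Agent.Results.MP_57deef_al.NotIntegrable

open Pool.Agent.V1132.Thompson

/-- **Theorem.** There is no group `H` whose derived subgroup is isomorphic to Thompson's
group `F`. -/
theorem result : ¬ ∃ (H : Type u) (_ : Group H), Nonempty (commutator H ≃* thompsonF) := by
  rintro ⟨H, hH, ⟨φ⟩⟩
  exact Pool.Agent.V1132.ThompsonMain.not_integrable φ

end Pool.Agent.Results.MP_57deef_al.NotIntegrable
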